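import Pool.Agent.Y912.BD.Prod

/-!
# Expanding repellers without box dimension in every dimension `n ≥ 5`, with a gap growing linearly in `n`

The manifold is `M = (ℝ⁴ × ℝ/κℤ)^k × ℝ^m`, of dimension `5 k + m`, with its flat metric; the map is the
product of `k` copies of the expanding map of the starting result and of `y ↦ 2 y`, the repeller the
product of `k` copies of the repeller and of `{0}`.
-/

set_option autoImplicit false

namespace Pool.Agent.Results.MP_16bd3e_an.LargeGapAllDimensions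

open Pool.Agent.Results.MP_16bd3e_an.RepellerNoBoxDimension
open Pool.Agent.Y912.BD

/-- **Theorem.** There are `κ > 0` and real numbers `a < b` such that for all `k ≥ 1` and `m ≥ 0` the flat
manifold `M = (ℝ⁴ × ℝ/κℤ)^k × ℝ^m` of dimension `5 k + m` has a `C^∞` expanding map with an expanding
repeller `Λ` whose lower box dimension is at most `k a` and whose upper box dimension is at least
`k b`, in particular is strictly larger. Consequently, in every dimension `n ≥ 5` there are such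
repellers, and for every `C` there are such repellers for which the two dimensions differ by at least `C`. -/
theorem result :
    (∃ κ a b : ℝ, 0 < κ ∧ a < b ∧ ∀ k m : ℕ, 1 ≤ k →
      ∃ (f : Man k m κ → Man k m κ) (Λ : Set (Man k m κ)), IsExpanding (projOf k m κ) f ∧ IsRepeller f Λ ∧
        lowerBoxDim Λ < upperBoxDim Λ ∧
        lowerBoxDim Λ ≤ ((k * a : ℝ) : EReal) ∧ ((k * b : ℝ) : EReal) ≤ upperBoxDim Λ) ∧
    (∀ C : ℝ, ∃ (κ : ℝ) (k : ℕ), 0 < κ ∧ 1 ≤ k ∧ ∀ m : ℕ,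
      ∃ (f : Man k m κ → Man k m κ) (Λ : Set (Man k m κ)) (s t : ℝ), IsExpanding (projOf k m κ) f ∧ IsRepeller f Λ ∧
        lowerBoxDim Λ ≤ (s : EReal) ∧ (t : EReal) ≤ upperBoxDim Λ ∧ C ≤ t - s) := by
  have main : ∃ κ a b : ℝ, 0 < κ ∧ a < b ∧ ∀ k m : ℕ, 1 ≤ k →
      ∃ (f : Man k m κ → Man k m κ) (Λ : Set (Man k m κ)), IsExpanding (projOf k m κ) f ∧ IsRepeller f Λ ∧
        lowerBoxDim Λ < upperBoxDim Λ ∧
        lowerBoxDim Λ ≤ ((k * a : ℝ) : EReal) ∧ ((k * b : ℝ) : EReal) ≤ upperBoxDim Λ := by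
    obtain ⟨κ, f, Λ, hκ, hf, hΛ, hlt⟩ := RepellerNoBoxDimension.result
    obtain ⟨a, h1, h2⟩ := EReal.lt_iff_exists_real_btwn.1 hlt
    obtain ⟨b, h3, h4⟩ := EReal.lt_iff_exists_real_btwn.1 h2
    have hab : a < b := by exact_mod_cast h3
    have hab' : (2 * a + b) / 3 < (a + 2 * b) / 3 := by linarith
    refine ⟨κ, (2 * a + b) / 3, (a + 2 * b) / 3, hκ, hab', fun k m hk => ?_⟩
    obtain ⟨C, hC, hC2⟩ := dist_le_of k m κ
    obtain ⟨h5, h6⟩ := dims (k := k) (fun x => (mk x 0 : Man k m κ)) hΛ.2.1 hΛ.1 hC dist_ge hC2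
      (a := a) (a' := (2 * a + b) / 3) (b := b) (b' := (a + 2 * b) / 3) (by linarith) (by linarith) h1 h4
    refine ⟨pr f, pw (fun x => (mk x 0 : Man k m κ)) Λ, expanding hf, repeller hΛ, ?_, h5, h6⟩
    refine h5.trans_lt (lt_of_lt_of_le ?_ h6)
    rw [EReal.coe_lt_coe_iff]
    have hk' : (0 : ℝ) < k := by exact_mod_cast hk
    exact mul_lt_mul_of_pos_left hab' hk'
  refine ⟨main, fun C => ?_⟩
  obtain ⟨κ, a, b, hκ, hab, h⟩ := main
  obtain ⟨n, hn⟩ := exists_nat_ge (C / (b - a))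
  refine ⟨κ, n + 1, hκ, by omega, fun m => ?_⟩
  obtain ⟨f, Λ, h1, h2, _, h4, h5⟩ := h (n + 1) m (by omega)
  refine ⟨f, Λ, _, _, h1, h2, h4, h5, ?_⟩
  have hd : 0 < b - a := sub_pos.2 hab
  rw [div_le_iff₀ hd] at hn
  push_cast
  nlinarith

end Pool.Agent.Results.MP_16bd3e_an.LargeGapAllDimensions
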